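import Pool.Agent.Q35.TT.Stm

/-!
Project TT, job PLC: places over large prime numbers with small residue fields.
-/

set_option autoImplicit false

open Height AdmissibleAbsValues NumberField IsDedekindDomain
open NumberField.HeightOneSpectrum (one_lt_absNorm_nnreal absNorm_ne_zero adicAbv)

namespace Pool.Agent.Q137.TT

open Pool.Agent.Q35.TT

/-- Two prime numbers are not both small at a nonarchimedean absolute value. -/
theorem prime_unique {K : Type} [Field K] {v : AbsoluteValue K ℝ} (hv : IsNonarchimedean v)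
    {p q : ℕ} (hp : p.Prime) (hq : q.Prime) (h1 : v (p : K) < 1) (h2 : v (q : K) < 1) : p = q := by
  by_contra hne
  have hc : Nat.Coprime p q := (Nat.coprime_primes hp hq).2 hne
  have hb : (Nat.gcd p q : ℤ) = p * Nat.gcdA p q + q * Nat.gcdB p q := Nat.gcd_eq_gcd_ab p q
  rw [hc] at hb
  have hK : (1 : K) = (p : K) * ((Nat.gcdA p q : ℤ) : K) + (q : K) * ((Nat.gcdB p q : ℤ) : K) := by
    have := congrArg (fun z : ℤ => (z : K)) hb
    push_cast at this
    simpa using this
  have hle : ∀ n : ℤ, v (n : K) ≤ 1 := fun n => hv.apply_intCast_le_one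
  have h3 : v ((p : K) * ((Nat.gcdA p q : ℤ) : K)) < 1 := by
    rw [map_mul]
    calc v (p : K) * v ((Nat.gcdA p q : ℤ) : K) ≤ v (p : K) * 1 :=
          mul_le_mul_of_nonneg_left (hle _) (v.nonneg _)
      _ < 1 := by rw [mul_one]; exact h1
  have h4 : v ((q : K) * ((Nat.gcdB p q : ℤ) : K)) < 1 := by
    rw [map_mul]
    calc v (q : K) * v ((Nat.gcdB p q : ℤ) : K) ≤ v (q : K) * 1 :=
          mul_le_mul_of_nonneg_left (hle _) (v.nonneg _)
      _ < 1 := by rw [mul_one]; exact h2
  have h5 : v (1 : K) < 1 := by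
    rw [hK]
    exact (hv _ _).trans_lt (max_lt h3 h4)
  rw [map_one] at h5
  exact lt_irrefl _ h5

theorem place_eq {K : Type} [Field K] [NumberField K] (P : HeightOneSpectrum (𝓞 K)) (x : K) :
    NumberField.place (FinitePlace.embedding P) x
      = WithZeroMulInt.toNNReal (absNorm_ne_zero P) (P.valuation K x) := by
  rw [NumberField.place_apply, FinitePlace.norm_embedding']

theorem place_mem {K : Type} [Field K] [NumberField K] (P : HeightOneSpectrum (𝓞 K)) :
    NumberField.place (FinitePlace.embedding P) ∈ nonarchAbsVal (K := K) := ⟨P, rfl⟩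

theorem place_int {K : Type} [Field K] [NumberField K] (P : HeightOneSpectrum (𝓞 K)) (x : 𝓞 K) :
    NumberField.place (FinitePlace.embedding P) (algebraMap (𝓞 K) K x) < 1 ↔ x ∈ P.asIdeal := by
  rw [NumberField.place_apply]
  exact FinitePlace.norm_lt_one_iff_mem K P x

/-- The absolute values smaller than one are at most `1 / N(P)`. -/
theorem place_gap {K : Type} [Field K] [NumberField K] (P : HeightOneSpectrum (𝓞 K)) (x : K)
    (hx : NumberField.place (FinitePlace.embedding P) x < 1) :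
    NumberField.place (FinitePlace.embedding P) x * (Ideal.absNorm P.asIdeal : ℝ) ≤ 1 := by
  rw [place_eq] at hx ⊢
  have he : 1 < (Ideal.absNorm P.asIdeal : NNReal) := one_lt_absNorm_nnreal P
  by_cases h0 : P.valuation K x = 0
  · rw [h0, map_zero]
    simp
  · have h1 := WithZeroMulInt.toNNReal_neg_apply (absNorm_ne_zero P) h0
    rw [h1] at hx ⊢
    set n := (WithZero.unzero h0).toAdd with hn
    have h2 : ((Ideal.absNorm P.asIdeal : NNReal)) ^ n < 1 := by exact_mod_cast hx
    have h3 : n < 0 := by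
      by_contra hc
      have := one_le_zpow₀ he.le (not_lt.1 hc)
      exact absurd h2 (not_lt.2 this)
    have h4 : ((Ideal.absNorm P.asIdeal : NNReal)) ^ n * (Ideal.absNorm P.asIdeal : NNReal) ≤ 1 := by
      rw [← zpow_add_one₀ (zero_lt_one.trans he).ne']
      exact zpow_le_one_of_nonpos₀ he.le (by omega)
    exact_mod_cast h4

theorem place_approx {K : Type} [Field K] [NumberField K] (P : HeightOneSpectrum (𝓞 K)) (x : K)
    (hx : NumberField.place (FinitePlace.embedding P) x ≤ 1) :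
    ∃ a : 𝓞 K, NumberField.place (FinitePlace.embedding P) (x - algebraMap (𝓞 K) K a) < 1 := by
  have he : 1 < (Ideal.absNorm P.asIdeal : NNReal) := one_lt_absNorm_nnreal P
  rw [place_eq] at hx
  have h1 : P.valuation K x ≤ 1 := by
    rw [← WithZeroMulInt.toNNReal_le_one_iff he]
    exact_mod_cast hx
  obtain ⟨a, ha⟩ := P.exists_valuation_sub_lt_of_integer (K := K) h1 1
  refine ⟨a, ?_⟩
  rw [place_eq]
  have h2 : P.valuation K (x - algebraMap (𝓞 K) K a) < 1 := by
    rw [Valuation.map_sub_swap]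
    simpa using ha
  have h3 := (WithZeroMulInt.toNNReal_lt_one_iff he).2 h2
  exact_mod_cast h3

theorem exists_over {K : Type} [Field K] [NumberField K] {p : ℕ} (hp : p.Prime) :
    ∃ P : HeightOneSpectrum (𝓞 K), (p : 𝓞 K) ∈ P.asIdeal ∧ p ≤ Ideal.absNorm P.asIdeal ∧
      Ideal.absNorm P.asIdeal ≤ p ^ Module.finrank ℚ K := by
  have hn : Ideal.absNorm (Ideal.span {(p : 𝓞 K)}) = p ^ Module.finrank ℚ K := by
    rw [Ideal.absNorm_span_singleton]
    have h1 : (p : 𝓞 K) = algebraMap ℤ (𝓞 K) p := by simp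
    rw [h1, Algebra.norm_algebraMap_of_basis (RingOfIntegers.basis K), Int.natAbs_pow,
      ← Module.finrank_eq_card_basis (RingOfIntegers.basis K), RingOfIntegers.rank]
    simp
  have hd : 0 < Module.finrank ℚ K := Module.finrank_pos
  have hne : Ideal.span {(p : 𝓞 K)} ≠ ⊤ := by
    intro h
    rw [h, Ideal.absNorm_top] at hn
    exact absurd hn.symm (Nat.one_lt_pow hd.ne' hp.one_lt).ne'
  obtain ⟨M, hM, hle⟩ := Ideal.exists_le_maximal _ hne
  have hpM : (p : 𝓞 K) ∈ M := hle (Ideal.mem_span_singleton_self _)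
  have hp0 : (p : 𝓞 K) ≠ 0 := by exact_mod_cast hp.ne_zero
  have hbot : M ≠ ⊥ := by
    rintro rfl
    exact hp0 (by simpa using hpM)
  refine ⟨⟨M, hM.isPrime, hbot⟩, hpM, ?_, ?_⟩
  · have hdvd : Ideal.absNorm M ∣ p ^ Module.finrank ℚ K := by
      rw [← hn]
      exact Ideal.absNorm_dvd_absNorm_of_le hle
    obtain ⟨f, -, hf⟩ := (Nat.dvd_prime_pow hp).1 hdvd
    have h1 : 1 < Ideal.absNorm M :=
      HeightOneSpectrum.one_lt_absNorm (⟨M, hM.isPrime, hbot⟩ : HeightOneSpectrum (𝓞 K))
    change p ≤ Ideal.absNorm M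
    rw [hf] at h1 ⊢
    have hf0 : f ≠ 0 := by
      rintro rfl
      simp at h1
    exact Nat.le_self_pow hf0 p
  · change Ideal.absNorm M ≤ _
    rw [← hn]
    refine Nat.le_of_dvd ?_ (Ideal.absNorm_dvd_absNorm_of_le hle)
    rw [hn]
    exact pow_pos hp.pos _

theorem plc (h : S_PLA) : S_PLC := by
  classical
  intro K _ _ S
  obtain ⟨-, h2, h3⟩ := h K
  have hna : ∀ v ∈ nonarchAbsVal (K := K), IsNonarchimedean v := fun v hv =>
    AdmissibleAbsValues.isNonarchimedean v hv
  -- the exceptional places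
  have hE2 : ∀ s : K, s ≠ 0 →
      {v : AbsoluteValue K ℝ | v ∈ nonarchAbsVal (K := K) ∧ v s ≠ 1}.Finite := by
    intro s hs
    have hf := AdmissibleAbsValues.hasFiniteMulSupport (K := K) hs
    have hf' : (Function.mulSupport fun v : nonarchAbsVal (K := K) => v.val s).Finite := hf
    refine (hf'.image Subtype.val).subset ?_
    rintro v ⟨hv1, hv2⟩
    exact ⟨⟨v, hv1⟩, hv2, rfl⟩
  set E : Set (AbsoluteValue K ℝ) :=
    {v : AbsoluteValue K ℝ | v ∈ nonarchAbsVal (K := K) ∧ ¬ ∃ p, Gd v p} ∪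
      ⋃ s ∈ (S.filter (fun s => s ≠ 0) : Finset K),
        {v : AbsoluteValue K ℝ | v ∈ nonarchAbsVal (K := K) ∧ v s ≠ 1} with hEdef
  have hE : E.Finite := by
    refine h3.union ((Finset.finite_toSet _).biUnion fun s hs => ?_)
    have hs' : s ∈ S.filter (fun s => s ≠ 0) := hs
    exact hE2 s (Finset.mem_filter.1 hs').2
  have hsub : ∀ v ∈ E, v ∈ nonarchAbsVal (K := K) := by
    intro v hv
    rcases hv with hv | hv
    · exact hv.1
    · simp only [Set.mem_iUnion] at hv
      obtain ⟨s, _, hv⟩ := hv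
      exact hv.1
  have hq : ∀ v : AbsoluteValue K ℝ, ∃ q : ℕ, v ∈ E → q.Prime ∧ v (q : K) < 1 := by
    intro v
    by_cases hv : v ∈ E
    · obtain ⟨q, hq⟩ := h2 v (hsub v hv)
      exact ⟨q, fun _ => hq⟩
    · exact ⟨0, fun h => absurd h hv⟩
  choose q hq using hq
  obtain ⟨p₀, hp₀⟩ := (hE.image q).bddAbove
  refine ⟨p₀, fun p hp hlt => ?_⟩
  obtain ⟨P, hP1, hP2, hP3⟩ := exists_over (K := K) hp
  set v : AbsoluteValue K ℝ := NumberField.place (FinitePlace.embedding P) with hv
  have hvm : v ∈ nonarchAbsVal (K := K) := place_mem P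
  have hvp : v (p : K) < 1 := by
    have h5 := (place_int P (p : 𝓞 K)).2 hP1
    rwa [map_natCast] at h5
  have hvE : v ∉ E := by
    intro hmem
    have h5 := prime_unique (hna v hvm) hp (hq v hmem).1 hvp (hq v hmem).2
    have h6 : q v ≤ p₀ := hp₀ ⟨v, hmem, rfl⟩
    omega
  have hG : Gd v p := by
    have : ∃ p', Gd v p' := by
      by_contra hc
      exact hvE (Or.inl ⟨hvm, hc⟩)
    obtain ⟨p', hp'⟩ := this
    have h5 := prime_unique (hna v hvm) hp hp'.prime hvp hp'.lt
    rw [h5]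
    exact hp'
  refine ⟨v, hvm, hG, ?_, ?_, ?_⟩
  · intro s hs hs0
    by_contra hc
    refine hvE (Or.inr ?_)
    simp only [Set.mem_iUnion]
    exact ⟨s, Finset.mem_filter.2 ⟨hs, hs0⟩, hvm, hc⟩
  · intro u hu
    refine le_trans ?_ (place_gap P u hu)
    exact mul_le_mul_of_nonneg_left (by exact_mod_cast hP2) (v.nonneg _)
  · have hfin : Finite (𝓞 K ⧸ P.asIdeal) := P.asIdeal.finiteQuotientOfFreeOfNeBot P.ne_bot
    have hr : ∀ x : K, ∃ a : 𝓞 K, v x ≤ 1 → v (x - algebraMap (𝓞 K) K a) < 1 := by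
      intro x
      by_cases hx : v x ≤ 1
      · obtain ⟨a, ha⟩ := place_approx P x hx
        exact ⟨a, fun _ => ha⟩
      · exact ⟨0, fun h => absurd h hx⟩
    choose r hr using hr
    letI : Fintype (𝓞 K ⧸ P.asIdeal) := Fintype.ofFinite _
    refine ⟨𝓞 K ⧸ P.asIdeal, inferInstance, fun x => Ideal.Quotient.mk P.asIdeal (r x), ?_, ?_⟩
    · have hc : Fintype.card (𝓞 K ⧸ P.asIdeal) = Ideal.absNorm P.asIdeal := by
        rw [← Nat.card_eq_fintype_card, Ideal.absNorm_apply, Submodule.cardQuot_apply]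
      rw [hc]
      exact hP3
    · intro x y hx hy hxy
      have h5 : r x - r y ∈ P.asIdeal := Ideal.Quotient.eq.1 hxy
      have h6 : v (algebraMap (𝓞 K) K (r x - r y)) < 1 := (place_int P _).2 h5
      have h7 := hr x hx
      have h8 := hr y hy
      have e : x - y = (x - algebraMap (𝓞 K) K (r x)) + (algebraMap (𝓞 K) K (r x - r y)
          + -(y - algebraMap (𝓞 K) K (r y))) := by
        rw [map_sub]
        ring
      rw [e]
      refine (hna v hvm _ _).trans_lt (max_lt h7 ?_)
      refine (hna v hvm _ _).trans_lt (max_lt h6 ?_)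
      rw [v.map_neg]
      exact h8

end Pool.Agent.Q137.TT
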