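import Pool.Agent.Q35.TT.Stm3
import Pool.Agent.Y720.MZ.Tors2

/-!
Project TT part 2, job INF: points close to zero have infinite order, for curves `y² = x³ + b x + c`.
Adapted from `Pool.Agent.Y720.MZ.Tors2` (helper720).
-/

set_option autoImplicit false

open WeierstrassCurve

namespace Pool.Agent.Q137.TT

open Pool.Agent.Y720.MZ

variable {K : Type*} [Field K] {v : AbsoluteValue K ℝ}

/-- The third point of a line through two points close to the origin, `a = 0`. -/
lemma third_close5 (hv : IsNonarchimedean v) {a b c x₁ x₂ x₃ ℓ ν : K} (ha0 : a = 0) (ha : v a ≤ 1)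
    (hb : v b ≤ 1)
    (hc : v c ≤ 1) (E1 : x₁ + x₂ + x₃ = ℓ ^ 2 - a)
    (E2 : x₁ * x₂ + x₁ * x₃ + x₂ * x₃ = b - 2 * ℓ * ν) (E3 : x₁ * x₂ * x₃ = ν ^ 2 - c)
    {r : ℝ} (hr0 : 0 < r) (hr : r < 1) (hν : ν ≠ 0) (hlam : v (-ℓ / ν) ≤ r ^ 2)
    (hmu : v (1 / ν) ≤ r ^ 3) (h1 : ℓ * x₁ + ν ≠ 0) (h2 : ℓ * x₂ + ν ≠ 0)
    (ht1 : v (x₁ / (ℓ * x₁ + ν)) ≤ r) (ht2 : v (x₂ / (ℓ * x₂ + ν)) ≤ r) :
    ℓ * x₃ + ν ≠ 0 ∧ 1 < v (ℓ * x₃ + ν) ∧
      v (x₃ / (ℓ * x₃ + ν) + x₁ / (ℓ * x₁ + ν) + x₂ / (ℓ * x₂ + ν)) ≤ r ^ 5 := by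
  obtain ⟨g1, g2, -⟩ := third_close hv ha hb hc E1 E2 E3 hr0 hr hν hlam hmu h1 h2 ht1 ht2
  refine ⟨g1, g2, ?_⟩
  set l := -ℓ / ν with hl
  set m := 1 / ν with hm
  have hl0 := v.nonneg l
  have hm0 := v.nonneg m
  have hr2 : r ^ 2 < 1 := pow_lt_one₀ hr0.le hr two_ne_zero
  have hl1 : v l < 1 := hlam.trans_lt hr2
  have hD : v (1 + a * l + b * l ^ 2 + c * l ^ 3) = 1 := by
    rw [show 1 + a * l + b * l ^ 2 + c * l ^ 3 = 1 + (a * l + b * l ^ 2 + c * l ^ 3) by ring]
    apply na_one_add hv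
    refine na_lt hv (na_lt hv ?_ ?_) ?_
    · rw [map_mul]
      exact (mul_le_of_le_one_left hl0 ha).trans_lt hl1
    · rw [map_mul, map_pow]
      exact (mul_le_of_le_one_left (by positivity) hb).trans_lt (pow_lt_one₀ hl0 hl1 two_ne_zero)
    · rw [map_mul, map_pow]
      exact (mul_le_of_le_one_left (by positivity) hc).trans_lt (pow_lt_one₀ hl0 hl1 three_ne_zero)
  have hD0 : 1 + a * l + b * l ^ 2 + c * l ^ 3 ≠ 0 := by
    intro h0
    rw [h0, map_zero] at hD
    exact zero_ne_one hD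
  obtain ⟨h3, h4⟩ := line_sum E1 E2 E3 hν h1 h2 hD0
  have hE : v ((a * m + 2 * b * l * m + 3 * c * l ^ 2 * m) /
      (1 + a * l + b * l ^ 2 + c * l ^ 3)) ≤ r ^ 5 := by
    rw [map_div₀, hD, div_one]
    have h2v : v (2 : K) ≤ 1 := by exact_mod_cast na_nat hv 2
    have h3v : v (3 : K) ≤ 1 := by exact_mod_cast na_nat hv 3
    have hlm : v l * v m ≤ r ^ 5 := by
      calc v l * v m ≤ r ^ 2 * r ^ 3 := by gcongr
        _ = r ^ 5 := by ring
    refine na_add hv (na_add hv ?_ ?_) ?_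
    · rw [ha0, zero_mul, map_zero]
      positivity
    · rw [map_mul, map_mul, map_mul]
      calc v 2 * v b * v l * v m = (v 2 * v b) * (v l * v m) := by ring
        _ ≤ 1 * (v l * v m) := by
            gcongr
            exact mul_le_one₀ h2v (v.nonneg _) hb
        _ ≤ r ^ 5 := by rw [one_mul]; exact hlm
    · rw [map_mul, map_mul, map_mul, map_pow]
      calc v 3 * v c * v l ^ 2 * v m = (v 3 * v c) * v l * (v l * v m) := by ring
        _ ≤ 1 * 1 * (v l * v m) := by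
            gcongr
            exact mul_le_one₀ h3v (v.nonneg _) hc
        _ ≤ r ^ 5 := by rw [one_mul, one_mul]; exact hlm
  have h5 : x₃ / (ℓ * x₃ + ν) + x₁ / (ℓ * x₁ + ν) + x₂ / (ℓ * x₂ + ν) =
      -((a * m + 2 * b * l * m + 3 * c * l ^ 2 * m) / (1 + a * l + b * l ^ 2 + c * l ^ 3)) := by
    rw [h4]; ring
  rw [h5, v.map_neg]
  exact hE

variable [DecidableEq K]

/-- the multiples of a point close to the origin -/
theorem mult_close5 (hv : IsNonarchimedean v) {a b c : K} (ha0 : a = 0) (ha : v a ≤ 1) (hb : v b ≤ 1)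
    (hc : v c ≤ 1) {p : ℕ} (hp3 : 3 ≤ p) (hp : ∀ k : ℕ, 1 ≤ k → k < p → v (k : K) = 1)
    {x y : K} (h : (cv a b c).toAffine.Nonsingular x y)
    (hx1 : 1 < v x) (hx : 1 < v x ^ 2 * v (p : K)) (hp1 : v (p : K) ≤ 1) :
    ∀ n : ℕ, 1 ≤ n → n ≤ p → ∃ x' y' h', n • (.some x y h : Pt a b c) = .some x' y' h' ∧
      1 < v x' ∧ v (x' / y' - n * (x / y)) ≤ v (x / y) ^ 5 := by
  have heq := (cv_ns.1 h).1
  obtain ⟨hy, h1, h2, h3, h4⟩ := val_ts hv ha hb hc hx1 heq
  set r := v (x / y) with hr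
  have hx0 : 0 < v x := one_pos.trans hx1
  have hr3r : r ^ 5 ≤ r := by
    calc r ^ 5 = r ^ 4 * r := by ring
      _ ≤ 1 * r := by gcongr; exact pow_le_one₀ h3.le h2.le
      _ = r := one_mul r
  have hrp : r ^ 4 < v (p : K) := by
    by_contra hcon
    push Not at hcon
    have e4 : v x ^ 2 * r ^ 4 = 1 := by
      calc v x ^ 2 * r ^ 4 = (r ^ 2 * v x) ^ 2 := by ring
        _ = 1 := by rw [h1]; norm_num
    have : v x ^ 2 * v (p : K) ≤ v x ^ 2 * r ^ 4 := by gcongr
    linarith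
  -- small integers
  have hint : ∀ k : ℕ, 1 ≤ k → k ≤ p → r ^ 4 < v (k : K) := by
    intro k hk1 hk2
    rcases hk2.lt_or_eq with hk | hk
    · rw [hp k hk1 hk]
      exact pow_lt_one₀ h3.le h2 four_ne_zero
    · rw [hk]; exact hrp
  have hbig : ∀ k : ℕ, 1 ≤ k → k ≤ p → ¬ v ((k : K) * (x / y)) ≤ r ^ 5 := by
    intro k hk1 hk2 hcon
    rw [map_mul, ← hr] at hcon
    have := hint k hk1 hk2
    have h6 : r ^ 4 * r < v (k : K) * r := by gcongr
    have h7 : r ^ 4 * r = r ^ 5 := by ring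
    linarith
  intro n hn
  induction n, hn using Nat.le_induction with
  | base =>
    intro _
    refine ⟨x, y, h, one_smul _ _, hx1, ?_⟩
    rw [Nat.cast_one, one_mul, sub_self, map_zero]
    positivity
  | succ n hn ih =>
    intro hnp
    obtain ⟨x', y', h', he, hx', ht'⟩ := ih (by omega)
    have heq' := (cv_ns.1 h').1
    obtain ⟨hy', h1', h2', h3', h4'⟩ := val_ts hv ha hb hc hx' heq'
    have ht1 : v (x' / y') ≤ r := by
      have e : x' / y' = (x' / y' - n * (x / y)) + n * (x / y) := by ring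
      rw [e]
      refine na_add hv (ht'.trans hr3r) ?_
      rw [map_mul, ← hr]
      exact mul_le_of_le_one_left h3.le (na_nat hv n)
    rcases hn.lt_or_eq with hn2 | hn1
    · -- the chord
      have hxx : x' ≠ x := by
        intro hxx
        subst hxx
        rcases eq_or_neg h' h with h5 | h5
        · rw [Affine.Point.some.injEq] at h5
          have h6 : x' / y' - n * (x' / y) = -((n - 1 : ℕ) * (x' / y)) := by
            rw [h5.2, Nat.cast_sub hn]; push_cast; ring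
          rw [h6, v.map_neg] at ht'
          exact hbig (n - 1) (by omega) (by omega) ht'
        · obtain ⟨h7, h8⟩ := neg_mk h
          rw [h8, Affine.Point.some.injEq] at h5
          have h6 : x' / y' - n * (x' / y) = -((n + 1 : ℕ) * (x' / y)) := by
            rw [h5.2, div_neg]; push_cast; ring
          rw [h6, v.map_neg] at ht'
          exact hbig (n + 1) (by omega) (by omega) ht'
      have htt : x' / y' ≠ x / y := by
        intro htt
        have h6 : x' / y' - n * (x / y) = -((n - 1 : ℕ) * (x / y)) := by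
          rw [htt, Nat.cast_sub hn]; push_cast; ring
        rw [h6, v.map_neg] at ht'
        exact hbig (n - 1) (by omega) (by omega) ht'
      have hxx' : x' - x ≠ 0 := sub_ne_zero.2 hxx
      set ℓ := (y' - y) / (x' - x) with hℓ
      have hℓ' : ℓ * (x' - x) = y' - y := div_mul_cancel₀ _ hxx'
      set ν := y' - ℓ * x' with hν
      have hy1 : y' = ℓ * x' + ν := by rw [hν]; ring
      have hy2 : y = ℓ * x + ν := by rw [hν]; linear_combination hℓ'
      obtain ⟨hν0, b1, b2⟩ := chord_bound hv ha hb hc h3 h2 hx' hx1 hxx heq' heq hy1 hy2 ht1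
        le_rfl htt
      obtain ⟨v1, v2⟩ := vieta_chord hxx heq' heq hy1 hy2
      obtain ⟨w1, w2, w3⟩ := third_close5 hv ha0 ha hb hc (x₁ := x') (x₂ := x)
        (x₃ := ℓ ^ 2 - a - x' - x) (ℓ := ℓ) (ν := ν) (by ring) v1 v2 h3 h2 hν0 b1 b2
        (by rw [← hy1]; exact hy') (by rw [← hy2]; exact hy) (by rw [← hy1]; exact ht1)
        (by rw [← hy2])
      obtain ⟨hns, hadd⟩ := add_mk h' h hxx hℓ'
      have e3 : -(ℓ * (ℓ ^ 2 - a - x' - x - x') + y') = -(ℓ * (ℓ ^ 2 - a - x' - x) + ν) := by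
        rw [hν]; ring
      refine ⟨_, _, hns, by rw [add_smul, one_smul, he, hadd], ?_, ?_⟩
      · refine one_lt_of_y hv ha hb hc ?_ (cv_ns.1 hns).1
        rw [e3, v.map_neg]
        exact w2
      · rw [e3, div_neg]
        rw [← hy1, ← hy2] at w3
        have e4 : -((ℓ ^ 2 - a - x' - x) / (ℓ * (ℓ ^ 2 - a - x' - x) + ν)) - ↑(n + 1) * (x / y) =
            -((ℓ ^ 2 - a - x' - x) / (ℓ * (ℓ ^ 2 - a - x' - x) + ν) + x' / y' + x / y) +
              (x' / y' - n * (x / y)) := by push_cast; ring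
        rw [e4]
        exact na_add hv (by rw [v.map_neg]; exact w3) ht'
    · -- the tangent
      subst hn1
      have h22 : v (2 : K) = 1 := by exact_mod_cast hp 2 (by norm_num) (by omega)
      have h20 : (2 : K) ≠ 0 := by
        intro h0; rw [h0, map_zero] at h22; exact zero_ne_one h22
      have hy2 : 2 * y ≠ 0 := mul_ne_zero h20 hy
      set ℓ := (3 * x ^ 2 + 2 * a * x + b) / (2 * y) with hℓ
      have hℓ' : ℓ * (2 * y) = 3 * x ^ 2 + 2 * a * x + b := div_mul_cancel₀ _ hy2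
      set ν := y - ℓ * x with hν
      have hy1 : y = ℓ * x + ν := by rw [hν]; ring
      obtain ⟨hν0, b1, b2⟩ := tangent_bound hv ha hb hc h22 hx1 heq hy1 hℓ' (le_refl (v (x / y)))
      obtain ⟨v1, v2⟩ := vieta_tangent heq hy1 hℓ'
      obtain ⟨w1, w2, w3⟩ := third_close5 hv ha0 ha hb hc (x₁ := x) (x₂ := x)
        (x₃ := ℓ ^ 2 - a - x - x) (ℓ := ℓ) (ν := ν) (by ring) v1 v2 h3 h2 hν0 b1 b2
        (by rw [← hy1]; exact hy) (by rw [← hy1]; exact hy) (by rw [← hy1])
        (by rw [← hy1])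
      obtain ⟨hns, hadd⟩ := dbl_mk h hy2 hℓ'
      have e3 : -(ℓ * (ℓ ^ 2 - a - x - x - x) + y) = -(ℓ * (ℓ ^ 2 - a - x - x) + ν) := by
        rw [hν]; ring
      refine ⟨_, _, hns, by rw [add_smul, one_smul, hadd], ?_, ?_⟩
      · refine one_lt_of_y hv ha hb hc ?_ (cv_ns.1 hns).1
        rw [e3, v.map_neg]
        exact w2
      · rw [e3, div_neg]
        rw [← hy1] at w3
        have e4 : -((ℓ ^ 2 - a - x - x) / (ℓ * (ℓ ^ 2 - a - x - x) + ν)) - ((1 + 1 : ℕ) : K) * (x / y) =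
            -((ℓ ^ 2 - a - x - x) / (ℓ * (ℓ ^ 2 - a - x - x) + ν) + x / y + x / y) := by
          push_cast; ring
        rw [e4, v.map_neg]
        exact w3

/-- A criterion for points of infinite order (curves with `a = 0`). -/
theorem infinite_order5 (hv : IsNonarchimedean v) {a b c : K} (ha0 : a = 0) (ha : v a ≤ 1) (hb : v b ≤ 1)
    (hc : v c ≤ 1) {p : ℕ} (hp3 : 3 ≤ p) (hp : ∀ k : ℕ, 1 ≤ k → k < p → v (k : K) = 1)
    (hp1 : v (p : K) < 1)
    {x y : K} (h : (cv a b c).toAffine.Nonsingular x y) (hx : 1 < v x ^ 2 * v (p : K)) :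
    ∀ n : ℕ, n ≠ 0 → n • (.some x y h : Pt a b c) ≠ 0 := by
  have hvp : 0 < v (p : K) := by
    rcases (v.nonneg (p : K)).lt_or_eq with h0 | h0
    · exact h0
    · rw [← h0, mul_zero] at hx; linarith
  -- one step
  have step : ∀ (x y : K) (h : (cv a b c).toAffine.Nonsingular x y), 1 < v x ^ 2 * v (p : K) →
      ∃ x' y' h', p • (.some x y h : Pt a b c) = .some x' y' h' ∧ v x < v x' ∧
        1 < v x' ^ 2 * v (p : K) := by
    intro x y h hx
    have hx1 : 1 < v x := by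
      by_contra hcon
      push Not at hcon
      have h5 : v x ^ 2 ≤ 1 := pow_le_one₀ (v.nonneg x) hcon
      have : v x ^ 2 * v (p : K) ≤ 1 * 1 := by gcongr
      linarith
    have heq := (cv_ns.1 h).1
    obtain ⟨hy, h1, h2, h3, h4⟩ := val_ts hv ha hb hc hx1 heq
    obtain ⟨x', y', h', he, hx', ht'⟩ := mult_close5 hv ha0 ha hb hc hp3 hp h hx1 hx hp1.le p
      (by omega) le_rfl
    obtain ⟨hy', h1', h2', h3', h4'⟩ := val_ts hv ha hb hc hx' (cv_ns.1 h').1
    have hrp : v (x / y) ^ 4 < v (p : K) := by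
      by_contra hcon
      push Not at hcon
      have e4 : v x ^ 2 * v (x / y) ^ 4 = 1 := by
        calc v x ^ 2 * v (x / y) ^ 4 = (v (x / y) ^ 2 * v x) ^ 2 := by ring
          _ = 1 := by rw [h1]; norm_num
      have : v x ^ 2 * v (p : K) ≤ v x ^ 2 * v (x / y) ^ 4 := by gcongr
      linarith
    have h5 : v (x' / y' - p * (x / y)) < v ((p : K) * (x / y)) := by
      refine ht'.trans_lt ?_
      rw [map_mul]
      calc v (x / y) ^ 5 = v (x / y) ^ 4 * v (x / y) := by ring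
        _ < v (p : K) * v (x / y) := by gcongr
    have h6 : v (x' / y') = v (p : K) * v (x / y) := by
      have e : x' / y' = (p : K) * (x / y) + (x' / y' - p * (x / y)) := by ring
      rw [e, na_eq hv h5, map_mul]
    have h7 : v x < v x' := by
      rw [h6] at h1'
      have h8 : v x = v (p : K) ^ 2 * v x' := by
        apply mul_left_cancel₀ (pow_pos h3 2).ne'
        rw [h1]
        linear_combination -h1'
      rw [h8]
      have : v (p : K) ^ 2 < 1 := pow_lt_one₀ hvp.le hp1 two_ne_zero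
      have : 0 < v x' := one_pos.trans hx'
      nlinarith
    refine ⟨x', y', h', he, h7, hx.trans ?_⟩
    have h8 : v x ^ 2 < v x' ^ 2 := by gcongr
    exact mul_lt_mul_of_pos_right h8 hvp
  -- the iterates
  let Q : ℕ → {z : K × K // (cv a b c).toAffine.Nonsingular z.1 z.2 ∧ 1 < v z.1 ^ 2 * v (p : K)} :=
    fun k => Nat.rec ⟨(x, y), h, hx⟩ (fun _ z =>
      ⟨((step z.1.1 z.1.2 z.2.1 z.2.2).choose,
        (step z.1.1 z.1.2 z.2.1 z.2.2).choose_spec.choose),
       (step z.1.1 z.1.2 z.2.1 z.2.2).choose_spec.choose_spec.choose,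
       (step z.1.1 z.1.2 z.2.1 z.2.2).choose_spec.choose_spec.choose_spec.2.2⟩) k
  have hQ0 : ∀ k, p ^ k • (.some x y h : Pt a b c) = .some (Q k).1.1 (Q k).1.2 (Q k).2.1 := by
    intro k
    induction k with
    | zero => rw [pow_zero, one_smul]; rfl
    | succ k ih =>
      rw [pow_succ', mul_smul, ih]
      exact (step (Q k).1.1 (Q k).1.2 (Q k).2.1 (Q k).2.2).choose_spec.choose_spec.choose_spec.1
  have hQ1 : StrictMono fun k => v (Q k).1.1 := by
    refine strictMono_nat_of_lt_succ fun k => ?_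
    exact (step (Q k).1.1 (Q k).1.2 (Q k).2.1 (Q k).2.2).choose_spec.choose_spec.choose_spec.2.1
  intro n hn h0
  have : NeZero n := ⟨hn⟩
  obtain ⟨i, j, hij, he⟩ := Finite.exists_ne_map_eq_of_infinite (fun k : ℕ => ((p ^ k : ℕ) : ZMod n))
  have hsm : ∀ m : ℕ, m • (.some x y h : Pt a b c) = (m % n) • (.some x y h : Pt a b c) := by
    intro m
    conv_lhs => rw [← Nat.div_add_mod m n, add_smul, mul_comm, mul_smul, h0, smul_zero, zero_add]
  have h1 : p ^ i • (.some x y h : Pt a b c) = p ^ j • (.some x y h : Pt a b c) := by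
    rw [hsm, hsm (p ^ j), (ZMod.natCast_eq_natCast_iff' _ _ _).1 he]
  rw [hQ0, hQ0, Affine.Point.some.injEq] at h1
  exact hij (hQ1.injective (by simp only [h1.1]))



theorem inf_ : Pool.Agent.Q35.TT.S_INF := by
  intro K _ _ v hv p hp hp5 hk hp1 b c x y hb hc _ n hn hT
  classical
  obtain ⟨h, hT⟩ := hT
  by_contra hcon
  push Not at hcon
  have key := infinite_order5 (K := K) (v := v) hv (a := 0) (b := b) (c := c) rfl
    (by rw [map_zero]; exact zero_le_one) hb hc (p := p) (by omega) hk hp1 h hcon n hn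
  apply key
  convert hT

end Pool.Agent.Q137.TT
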